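import Pool.Agent.Helper98.DISC.GoalsC

/-!
# Project DISC, packet SAM
-/

open MeasureTheory Set Filter Topology

noncomputable section

namespace Pool.Agent.Helper62.DISC

open Pool.Agent.Helper98.DISC

theorem exp_arg_div {p q : ℂ} (hq : q ≠ 0) :
    ((‖p‖ * ‖q‖ : ℝ) : ℂ) * Complex.exp (-((Complex.arg (p / q) : ℝ) * Complex.I)) =
      (starRingEnd ℂ) p * q := by
  have h1 : ((‖p / q‖ : ℝ) : ℂ) * Complex.exp (-((Complex.arg (p / q) : ℝ) * Complex.I)) =
      (starRingEnd ℂ) (p / q) := by
    conv_rhs => rw [← Complex.norm_mul_exp_arg_mul_I (p / q)]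
    rw [map_mul, ← Complex.exp_conj, map_mul, Complex.conj_ofReal, Complex.conj_ofReal, Complex.conj_I]
    congr 2
    ring
  have h2 : ((‖p‖ * ‖q‖ : ℝ) : ℂ) = ((‖p / q‖ : ℝ) : ℂ) * ((starRingEnd ℂ) q * q) := by
    rw [Complex.conj_mul', norm_div]
    have hn : (‖q‖ : ℂ) ≠ 0 := by simpa using hq
    push_cast
    field_simp
  have hc : (starRingEnd ℂ) q ≠ 0 := (map_ne_zero _).2 hq
  rw [h2, mul_right_comm, h1, map_div₀]
  field_simp

theorem arg_Ioo {z : ℂ} (h : 0 < z.im) : Complex.arg z ∈ Ioo 0 Real.pi :=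
  ⟨lt_of_le_of_ne (Complex.arg_nonneg_iff.2 h.le) fun h0 =>
    h.ne' (Complex.arg_eq_zero_iff.1 h0.symm).2, Complex.arg_lt_pi_iff.2 (Or.inr h.ne')⟩

theorem ofReal_mul_im' (r : ℝ) (x : ℂ) : r * x.im = ((r : ℂ) * x).im := by
  rw [Complex.im_ofReal_mul]

theorem sam : S_SAM := by
  intro a b w h
  have hab : a - b ≠ 0 := by
    intro h0
    rw [sub_eq_zero] at h0
    rw [h0] at h
    unfold cr at h
    nlinarith
  have hwa : w - a ≠ 0 := by
    intro h0
    rw [sub_eq_zero] at h0
    rw [h0] at h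
    unfold cr at h
    nlinarith
  have hwb : w - b ≠ 0 := by
    intro h0
    rw [sub_eq_zero] at h0
    rw [h0] at h
    unfold cr at h
    nlinarith
  have hu : 0 < ((w - b) / (a - b)).im := by
    have e1 : ((w - b) / (a - b)).im = cr a w b / Complex.normSq (a - b) := by
      rw [Complex.div_im]
      unfold cr
      simp only [Complex.sub_re, Complex.sub_im]
      ring
    rw [e1]
    exact div_pos h (Complex.normSq_pos.2 hab)
  have hv : 0 < ((b - a) / (w - a)).im := by
    have e1 : ((b - a) / (w - a)).im = cr a w b / Complex.normSq (w - a) := by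
      rw [Complex.div_im]
      unfold cr
      simp only [Complex.sub_re, Complex.sub_im]
      ring
    rw [e1]
    exact div_pos h (Complex.normSq_pos.2 hwa)
  have huv : 0 < ((w - b) / (a - b) * ((b - a) / (w - a))).im := by
    have e0 : (w - b) / (a - b) * ((b - a) / (w - a)) = (b - w) / (w - a) := by
      field_simp
      ring
    have e1 : ((b - w) / (w - a)).im = cr a w b / Complex.normSq (w - a) := by
      rw [Complex.div_im]
      unfold cr
      simp only [Complex.sub_re, Complex.sub_im]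
      ring
    rw [e0, e1]
    exact div_pos h (Complex.normSq_pos.2 hwa)
  have hal : al a w b ∈ Ioo 0 Real.pi := arg_Ioo hu
  have hps : ps a w b ∈ Ioo 0 Real.pi := arg_Ioo hv
  have hsum : al a w b + ps a w b < Real.pi := by
    by_contra hc
    push Not at hc
    have hs : Real.sin (al a w b + ps a w b) ≤ 0 := by
      have : Real.sin (al a w b + ps a w b) = - Real.sin (al a w b + ps a w b - Real.pi) := by
        rw [Real.sin_sub_pi, neg_neg]
      rw [this, neg_nonpos]
      exact Real.sin_nonneg_of_nonneg_of_le_pi (by linarith) (by linarith [hal.2, hps.2])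
    have e1 : (w - b) / (a - b) * ((b - a) / (w - a)) =
        ((‖(w - b) / (a - b)‖ * ‖(b - a) / (w - a)‖ : ℝ) : ℂ) *
          Complex.exp (((al a w b + ps a w b : ℝ) : ℂ) * Complex.I) := by
      conv_lhs => rw [← Complex.norm_mul_exp_arg_mul_I ((w - b) / (a - b)),
        ← Complex.norm_mul_exp_arg_mul_I ((b - a) / (w - a))]
      rw [Complex.ofReal_add, add_mul, Complex.exp_add, Complex.ofReal_mul]
      change _ = _ * (Complex.exp ((Complex.arg ((w - b) / (a - b)) : ℝ) * Complex.I) *
        Complex.exp ((Complex.arg ((b - a) / (w - a)) : ℝ) * Complex.I))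
      ring
    rw [e1, Complex.im_ofReal_mul, Complex.exp_ofReal_mul_I_im] at huv
    have : 0 ≤ ‖(w - b) / (a - b)‖ * ‖(b - a) / (w - a)‖ := by positivity
    nlinarith
  have k1 := exp_arg_div (p := w - b) hab
  have k2 := exp_arg_div (p := b - a) hwa
  refine ⟨⟨hal.1, hps.1, hsum⟩, fun z => ?_, fun z => ?_, fun z => ?_⟩
  · have e1 : ‖w - b‖ * ‖a - b‖ * dq a w (al a w b) z =
        ((z - w) * (starRingEnd ℂ) (a - z) * ((starRingEnd ℂ) (w - b) * (a - b))).im := by
      rw [← k1, dq, ofReal_mul_im']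
      congr 1
      unfold al
      ring
    rw [e1, dlt]
    simp only [Complex.mul_im, Complex.mul_re, Complex.conj_re, Complex.conj_im, Complex.sub_re,
      Complex.sub_im, map_mul, map_sub]
    ring
  · have e1 : ‖a - b‖ * ‖w - a‖ * dq w b (ps a w b) z =
        ((z - b) * (starRingEnd ℂ) (w - z) * ((starRingEnd ℂ) (b - a) * (w - a))).im := by
      rw [← k2, dq, norm_sub_rev a b, ofReal_mul_im']
      congr 1
      unfold ps
      ring
    rw [e1, dlt]
    simp only [Complex.mul_im, Complex.mul_re, Complex.conj_re, Complex.conj_im, Complex.sub_re,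
      Complex.sub_im, map_mul, map_sub]
    ring
  · have hn : (‖a - b‖ : ℂ) ≠ 0 := by simpa using hab
    have e2 : ((‖w - b‖ * ‖w - a‖ : ℝ) : ℂ) *
        Complex.exp (-(((al a w b + ps a w b : ℝ) : ℂ) * Complex.I)) =
        (starRingEnd ℂ) (w - b) * (a - w) := by
      have e3 : Complex.exp (-(((al a w b + ps a w b : ℝ) : ℂ) * Complex.I)) =
          Complex.exp (-((Complex.arg ((w - b) / (a - b)) : ℝ) * Complex.I)) *
          Complex.exp (-((Complex.arg ((b - a) / (w - a)) : ℝ) * Complex.I)) := by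
        rw [← Complex.exp_add]
        congr 1
        unfold al ps
        push_cast
        ring
      have e4 : ((‖w - b‖ * ‖w - a‖ : ℝ) : ℂ) * (‖a - b‖ : ℂ) ^ 2 =
          ((‖w - b‖ * ‖a - b‖ : ℝ) : ℂ) * ((‖b - a‖ * ‖w - a‖ : ℝ) : ℂ) := by
        rw [norm_sub_rev b a]
        push_cast
        ring
      have e5 : (‖a - b‖ : ℂ) ^ 2 = (starRingEnd ℂ) (a - b) * (a - b) := (Complex.conj_mul' _).symm
      refine mul_left_cancel₀ (pow_ne_zero 2 hn) ?_
      rw [← mul_assoc, mul_comm ((‖a - b‖ : ℂ) ^ 2) ((‖w - b‖ * ‖w - a‖ : ℝ) : ℂ), e4, e3]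
      calc _ = (((‖w - b‖ * ‖a - b‖ : ℝ) : ℂ) *
            Complex.exp (-((Complex.arg ((w - b) / (a - b)) : ℝ) * Complex.I))) *
            (((‖b - a‖ * ‖w - a‖ : ℝ) : ℂ) *
            Complex.exp (-((Complex.arg ((b - a) / (w - a)) : ℝ) * Complex.I))) := by ring
        _ = _ := by
          rw [k1, k2, e5]
          simp only [map_sub]
          ring
    have e1 : ‖w - b‖ * ‖w - a‖ * dq a b (al a w b + ps a w b) z =
        ((z - b) * (starRingEnd ℂ) (a - z) * ((starRingEnd ℂ) (w - b) * (a - w))).im := by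
      rw [← e2, dq, ofReal_mul_im']
      congr 1
      ring
    rw [e1, dlt]
    simp only [map_mul]
    congr 1
    ring

end Pool.Agent.Helper62.DISC
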